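import Mathlib

/-!
MP_c73f8e_nt, Q1 (answer: no).  If a finite abelian group `G` has a perfect restricted `s`-basis
`A` of size `2s+1`, then `G ≅ Z₂^{2s}` or `G ≅ Z₂^{2s-2} × Z₄`.
-/

namespace Pool.Agent.Results.MP_c73f8e_nt.PerfectBases

open Finset

/-- `A` is a perfect restricted `s`-basis of `G`: every element of `G` is the sum of exactly one
subset of `A` with at most `s` elements. -/
def IsPerfectRestrictedBasis {G : Type*} [AddCommGroup G] (s : ℕ) (A : Finset G) : Prop :=
  ∀ g : G, ∃! B : Finset G, B ⊆ A ∧ B.card ≤ s ∧ ∑ b ∈ B, b = g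

section comb

variable {G : Type*} [AddCommGroup G] [DecidableEq G]

/-- every `s`-subset `Y` contains a set `E` with sum `2ΣY - ΣA` -/
theorem exists_E {s : ℕ} {A : Finset G} (hA : A.card = 2 * s + 1)
    (hinj : ∀ B ⊆ A, ∀ B' ⊆ A, B.card ≤ s → B'.card ≤ s → ∑ b ∈ B, b = ∑ b ∈ B', b → B = B')
    (hsurj : ∀ g : G, ∃ B ⊆ A, B.card ≤ s ∧ ∑ b ∈ B, b = g)
    (Y : Finset G) (hY : Y ⊆ A) (hYs : Y.card = s) :
    ∃ E ⊆ Y, ∑ b ∈ E, b = (2 : ℕ) • (∑ b ∈ Y, b) - ∑ b ∈ A, b := by
  obtain ⟨K, hKA, hKs, hK⟩ := hsurj (∑ b ∈ A, b - ∑ b ∈ Y, b)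
  set P := A \ Y with hP
  have hPcard : P.card = s + 1 := by
    rw [hP, card_sdiff_of_subset hY, hA, hYs]; omega
  have hPsum : ∑ b ∈ P, b = ∑ b ∈ K, b := by
    rw [hK, hP, ← Finset.sum_sdiff hY]; abel
  have hdisj : Disjoint K P := by
    by_contra hnd
    have hne : (K ∩ P).Nonempty := by
      rw [Finset.nonempty_iff_ne_empty]
      intro h
      exact hnd (Finset.disjoint_iff_inter_eq_empty.2 h)
    have h1 : (P \ K).card ≤ s := by
      have := Finset.card_sdiff_add_card_inter P K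
      have h2 : 0 < (P ∩ K).card := by
        rw [Finset.inter_comm]; exact hne.card_pos
      omega
    have h2 : (K \ P).card ≤ s := (card_le_card sdiff_subset).trans hKs
    have hs1 := Finset.sum_sdiff (f := fun b : G => b) (inter_subset_left : P ∩ K ⊆ P)
    have hs2 := Finset.sum_sdiff (f := fun b : G => b) (inter_subset_left : K ∩ P ⊆ K)
    have e1 : P \ (P ∩ K) = P \ K := by ext x; simp
    have e2 : K \ (K ∩ P) = K \ P := by ext x; simp
    rw [e1] at hs1
    rw [e2, Finset.inter_comm K P] at hs2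
    have h3 : ∑ b ∈ P \ K, b = ∑ b ∈ K \ P, b := by
      have : ∑ b ∈ P \ K, b + ∑ b ∈ P ∩ K, b = ∑ b ∈ K \ P, b + ∑ b ∈ P ∩ K, b := by
        rw [hs1, hs2, hPsum]
      exact add_right_cancel this
    have h4 := hinj (P \ K) (sdiff_subset.trans sdiff_subset) (K \ P) (sdiff_subset.trans hKA)
      h1 h2 h3
    have h5 : P ⊆ K := by
      intro x hx
      by_contra hxK
      have : x ∈ P \ K := mem_sdiff.2 ⟨hx, hxK⟩
      rw [h4] at this
      exact (mem_sdiff.1 this).2 hx
    have := card_le_card h5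
    omega
  have hKY : K ⊆ Y := by
    intro x hx
    by_contra hxY
    have : x ∈ P := mem_sdiff.2 ⟨hKA hx, hxY⟩
    exact (Finset.disjoint_left.1 hdisj) hx this
  refine ⟨Y \ K, sdiff_subset, ?_⟩
  have := Finset.sum_sdiff (f := fun b : G => b) hKY
  rw [hK] at this
  rw [two_nsmul]
  have h2 : ∑ b ∈ Y \ K, b = ∑ b ∈ Y, b - (∑ b ∈ A, b - ∑ b ∈ Y, b) := by
    exact eq_sub_of_add_eq this
  rw [h2]; abel

/-- the main combinatorial statement: all elements of `A` have the same double `u`, with `u = 0`,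
or `u ≠ 0 = 2u` and the only exception is the element `u` itself -/
theorem core {s : ℕ} (hs : 1 ≤ s) {A : Finset G} (hA : A.card = 2 * s + 1)
    (hinj : ∀ B ⊆ A, ∀ B' ⊆ A, B.card ≤ s → B'.card ≤ s → ∑ b ∈ B, b = ∑ b ∈ B', b → B = B')
    (hsurj : ∀ g : G, ∃ B ⊆ A, B.card ≤ s ∧ ∑ b ∈ B, b = g) :
    (∀ a ∈ A, (2 : ℕ) • a = 0) ∨
    ∃ u : G, u ≠ 0 ∧ (2 : ℕ) • u = 0 ∧ (∀ a ∈ A, (2 : ℕ) • a = u ∨ a = u) ∧
      ∃ a ∈ A, (2 : ℕ) • a = u := by
  set σ : G := ∑ b ∈ A, b with hσ
  have hEx : ∀ Y : Finset G, ∃ E : Finset G, Y ⊆ A → Y.card = s →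
      E ⊆ Y ∧ ∑ b ∈ E, b = (2 : ℕ) • (∑ b ∈ Y, b) - σ := by
    intro Y
    by_cases h1 : Y ⊆ A
    · by_cases h2 : Y.card = s
      · obtain ⟨E, hE, hE2⟩ := exists_E hA hinj hsurj Y h1 h2
        exact ⟨E, fun _ _ => ⟨hE, hE2⟩⟩
      · exact ⟨∅, fun _ h => absurd h h2⟩
    · exact ⟨∅, fun h _ => absurd h h1⟩
  choose E hE using hEx
  -- basic facts on E
  have E_eq : ∀ Y Y' : Finset G, Y ⊆ A → Y' ⊆ A → Y.card = s → Y'.card = s →
      (2 : ℕ) • (∑ b ∈ Y, b) = (2 : ℕ) • (∑ b ∈ Y', b) → E Y = E Y' := by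
    intro Y Y' h1 h2 h3 h4 h5
    obtain ⟨a1, a2⟩ := hE Y h1 h3
    obtain ⟨b1, b2⟩ := hE Y' h2 h4
    apply hinj _ (a1.trans h1) _ (b1.trans h2) ((card_le_card a1).trans h3.le)
      ((card_le_card b1).trans h4.le)
    rw [a2, b2, h5]
  have E_empty : ∀ Y : Finset G, Y ⊆ A → Y.card = s → (E Y = ∅ ↔ (2 : ℕ) • (∑ b ∈ Y, b) = σ) := by
    intro Y h1 h2
    obtain ⟨a1, a2⟩ := hE Y h1 h2
    constructor
    · intro h
      rw [h, Finset.sum_empty] at a2
      exact (sub_eq_zero.1 a2.symm)
    · intro h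
      apply hinj _ (a1.trans h1) _ (empty_subset _) ((card_le_card a1).trans h2.le) (by simp)
      rw [a2, h, sub_self, Finset.sum_empty]
  -- replacing one element
  have swap_card : ∀ (Y : Finset G) (e f : G), e ∈ Y → f ∉ Y → Y.card = s →
      (insert f (Y.erase e)).card = s := by
    intro Y e f he hf hY
    rw [card_insert_of_notMem (fun h => hf (mem_of_mem_erase h)), card_erase_of_mem he, hY]
    omega
  have swap_sum : ∀ (Y : Finset G) (e f : G), e ∈ Y → f ∉ Y →
      (2 : ℕ) • (∑ b ∈ insert f (Y.erase e), b) =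
        (2 : ℕ) • (∑ b ∈ Y, b) - (2 : ℕ) • e + (2 : ℕ) • f := by
    intro Y e f he hf
    rw [Finset.sum_insert (fun h => hf (mem_of_mem_erase h)), ← Finset.add_sum_erase Y _ he]
    simp only [smul_add]
    abel
  have swap_sub : ∀ (Y : Finset G) (e f : G), Y ⊆ A → f ∈ A → insert f (Y.erase e) ⊆ A := by
    intro Y e f hY hf x hx
    rcases mem_insert.1 hx with h | h
    · rw [h]; exact hf
    · exact hY (mem_of_mem_erase h)
  -- fullness
  have full : ∀ Y : Finset G, Y ⊆ A → Y.card = s → ∀ e ∈ E Y, ∀ f ∈ A,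
      (2 : ℕ) • f = (2 : ℕ) • e → f ∈ Y := by
    intro Y h1 h2 e he f hf hfe
    by_contra hfY
    have heY : e ∈ Y := (hE Y h1 h2).1 he
    have h3 : E (insert f (Y.erase e)) = E Y := by
      apply E_eq _ _ (swap_sub Y e f h1 hf) h1 (swap_card Y e f heY hfY h2) h2
      rw [swap_sum Y e f heY hfY, hfe]; abel
    have h4 : e ∈ insert f (Y.erase e) := by
      have := (hE _ (swap_sub Y e f h1 hf) (swap_card Y e f heY hfY h2)).1
      rw [h3] at this
      exact this he
    rcases mem_insert.1 h4 with h | h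
    · rw [h] at heY; exact hfY heY
    · exact (notMem_erase e Y) h
  -- L2
  have L2 : ∀ B : Finset G, B ⊆ A → B.card + 1 = s → ∀ x ∈ A, ∀ y ∈ A, x ∉ B → y ∉ B →
      x ∈ E (insert x B) → y ∈ E (insert y B) → x = y := by
    intro B hB hBs x hx y hy hxB hyB hxE hyE
    by_contra hxy
    have key : ∀ x ∈ A, x ∉ B → x ∈ E (insert x B) →
        ∃ K ⊆ B, ∑ b ∈ insert x K, b = σ - ∑ b ∈ B, b := by
      intro x hx hxB hxE
      have hYA : insert x B ⊆ A := insert_subset hx hB
      have hYs : (insert x B).card = s := by rw [card_insert_of_notMem hxB, hBs]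
      obtain ⟨h1, h2⟩ := hE _ hYA hYs
      refine ⟨insert x B \ E (insert x B), ?_, ?_⟩
      · intro z hz
        obtain ⟨hz1, hz2⟩ := mem_sdiff.1 hz
        rcases mem_insert.1 hz1 with h | h
        · rw [h] at hz2; exact absurd hxE hz2
        · exact h
      · rw [Finset.sum_insert (fun h => (mem_sdiff.1 h).2 hxE)]
        have h3 := Finset.sum_sdiff (f := fun b : G => b) h1
        have h4 : ∑ b ∈ insert x B \ E (insert x B), b
            = ∑ b ∈ insert x B, b - ∑ b ∈ E (insert x B), b := eq_sub_of_add_eq h3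
        rw [h4, h2, Finset.sum_insert hxB, two_nsmul]
        abel
    obtain ⟨K, hK1, hK2⟩ := key x hx hxB hxE
    obtain ⟨K', hK1', hK2'⟩ := key y hy hyB hyE
    have hc : ∀ (z : G) (K : Finset G), K ⊆ B → (insert z K).card ≤ s := by
      intro z K hK
      have := card_le_card hK
      have := card_insert_le z K
      omega
    have heq : insert x K = insert y K' := by
      apply hinj _ (insert_subset hx (hK1.trans hB)) _ (insert_subset hy (hK1'.trans hB))
        (hc x K hK1) (hc y K' hK1')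
      rw [hK2, hK2']
    have : x ∈ insert y K' := by rw [← heq]; exact mem_insert_self _ _
    rcases mem_insert.1 this with h | h
    · exact hxy h
    · exact hxB (hK1' h)
  -- L2 for classes
  have L3 : ∀ B : Finset G, B ⊆ A → B.card + 1 = s → ∀ y ∈ A, ∀ z ∈ A, y ∉ B → z ∉ B →
      (2 : ℕ) • y ≠ (2 : ℕ) • z → ∀ e ∈ E (insert y B), ∀ f ∈ E (insert z B),
      (2 : ℕ) • e = (2 : ℕ) • y → (2 : ℕ) • f = (2 : ℕ) • z → False := by
    intro B hB hBs y hy z hz hyB hzB hyz e he f hf hey hfz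
    have hyBA : insert y B ⊆ A := insert_subset hy hB
    have hzBA : insert z B ⊆ A := insert_subset hz hB
    have hyBs : (insert y B).card = s := by rw [card_insert_of_notMem hyB, hBs]
    have hzBs : (insert z B).card = s := by rw [card_insert_of_notMem hzB, hBs]
    have heY := (hE _ hyBA hyBs).1 he
    have hfZ := (hE _ hzBA hzBs).1 hf
    have hef : e ≠ f := fun h => hyz (by rw [← hey, ← hfz, h])
    have hyz' : y ≠ z := fun h => hyz (by rw [h])
    have hez : e ≠ z := fun h => hyz (by rw [← hey, h])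
    have hfy : f ≠ y := fun h => hyz (by rw [← hfz, h])
    set W := insert y (insert z B) with hW
    have hWA : W ⊆ A := insert_subset hy (insert_subset hz hB)
    have hyzB : y ∉ insert z B := by
      intro h
      rcases mem_insert.1 h with h | h
      · exact hyz' h
      · exact hyB h
    have hWs : W.card = s + 1 := by
      rw [hW, card_insert_of_notMem hyzB, hzBs]
    have heW : e ∈ W := by
      rcases mem_insert.1 heY with h | h
      · rw [h]; exact mem_insert_self _ _
      · exact mem_insert_of_mem (mem_insert_of_mem h)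
    have hfW : f ∈ W := by
      rcases mem_insert.1 hfZ with h | h
      · rw [h]; exact mem_insert_of_mem (mem_insert_self _ _)
      · exact mem_insert_of_mem (mem_insert_of_mem h)
    set B' := (W.erase e).erase f with hB'
    have hfWe : f ∈ W.erase e := mem_erase.2 ⟨hef.symm, hfW⟩
    have hB'A : B' ⊆ A := (erase_subset _ _).trans ((erase_subset _ _).trans hWA)
    have hB's : B'.card + 1 = s := by
      rw [hB', card_erase_of_mem hfWe, card_erase_of_mem heW, hWs]; omega
    have heB' : e ∉ B' := fun h => (notMem_erase e W) (mem_of_mem_erase h)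
    have hfB' : f ∉ B' := notMem_erase f _
    have hWsum : (2 : ℕ) • ∑ b ∈ W, b = (2 : ℕ) • y + (2 : ℕ) • z + (2 : ℕ) • ∑ b ∈ B, b := by
      rw [hW, Finset.sum_insert hyzB, Finset.sum_insert hzB]
      simp only [smul_add]; abel
    have hs1 : f + ∑ b ∈ B', b = ∑ b ∈ W.erase e, b := Finset.add_sum_erase _ (fun b : G => b) hfWe
    have hs2 : e + ∑ b ∈ W.erase e, b = ∑ b ∈ W, b := Finset.add_sum_erase _ (fun b : G => b) heW
    have hWsum' : (2 : ℕ) • e + (2 : ℕ) • f + (2 : ℕ) • ∑ b ∈ B', b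
        = (2 : ℕ) • y + (2 : ℕ) • z + (2 : ℕ) • ∑ b ∈ B, b := by
      rw [← hWsum, ← hs2, ← hs1]; simp only [smul_add]; abel
    have hBB : (2 : ℕ) • ∑ b ∈ B', b = (2 : ℕ) • ∑ b ∈ B, b := by
      rw [hey, hfz] at hWsum'
      exact add_left_cancel hWsum'
    have heE : e ∈ E (insert e B') := by
      have : E (insert e B') = E (insert y B) := by
        apply E_eq _ _ (insert_subset (hWA heW) hB'A) hyBA
          (by rw [card_insert_of_notMem heB', hB's]) hyBs
        rw [Finset.sum_insert heB', Finset.sum_insert hyB, smul_add, smul_add, hBB, hey]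
      rw [this]; exact he
    have hfE : f ∈ E (insert f B') := by
      have : E (insert f B') = E (insert z B) := by
        apply E_eq _ _ (insert_subset (hWA hfW) hB'A) hzBA
          (by rw [card_insert_of_notMem hfB', hB's]) hzBs
        rw [Finset.sum_insert hfB', Finset.sum_insert hzB, smul_add, smul_add, hBB, hfz]
      rw [this]; exact hf
    exact hef (L2 B' hB'A hB's e (hWA heW) f (hWA hfW) heB' hfB' heE hfE)
  -- transversal
  obtain ⟨T, hTA, hTinj, hTsurj⟩ : ∃ T ⊆ A, (∀ t ∈ T, ∀ t' ∈ T, (2 : ℕ) • t = (2 : ℕ) • t' → t = t') ∧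
      ∀ a ∈ A, ∃ t ∈ T, (2 : ℕ) • t = (2 : ℕ) • a := by
    classical
    obtain ⟨t, ht1, ht2⟩ := Set.exists_subset_bijOn (A : Set G) (fun a => (2 : ℕ) • a)
    refine ⟨A.filter (· ∈ t), filter_subset _ _, ?_, ?_⟩
    · intro x hx y hy hxy
      exact ht2.injOn (mem_filter.1 hx).2 (mem_filter.1 hy).2 hxy
    · intro a ha
      obtain ⟨x, hx, hx2⟩ := ht2.surjOn ⟨a, ha, rfl⟩
      exact ⟨x, mem_filter.2 ⟨ht1 hx, hx⟩, hx2⟩
  set M := A \ T with hM
  have hMA : M ⊆ A := sdiff_subset
  have hMT : M.card + T.card = 2 * s + 1 := by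
    rw [hM, card_sdiff_of_subset hTA, hA]
    have := card_le_card hTA
    omega
  have hTM : ∀ t ∈ T, t ∉ M := fun t ht h => (mem_sdiff.1 h).2 ht
  have hTM' : ∀ t ∈ M, t ∉ T := fun t ht => (mem_sdiff.1 ht).2
  -- representatives of elements of E Y lie in Y ∩ T
  have rep : ∀ Y : Finset G, Y ⊆ A → Y.card = s → ∀ e ∈ E Y, ∃ t ∈ T, t ∈ Y ∧
      (2 : ℕ) • t = (2 : ℕ) • e := by
    intro Y h1 h2 e he
    obtain ⟨t, ht, hte⟩ := hTsurj e (h1 ((hE Y h1 h2).1 he))
    exact ⟨t, ht, full Y h1 h2 e he t (hTA ht) hte, hte⟩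
  have hMs : s ≤ M.card := by
    by_contra hlt
    push Not at hlt
    obtain ⟨r, hr⟩ : ∃ r, M.card + (r + 1) = s := ⟨s - M.card - 1, by omega⟩
    have hTc : T.card = s + r + 2 := by omega
    set R := powersetCard (r + 1) T with hR
    set Q := powersetCard r T with hQ
    have hRY : ∀ X ∈ R, M ∪ X ⊆ A ∧ (M ∪ X).card = s := by
      intro X hX
      obtain ⟨hX1, hX2⟩ := mem_powersetCard.1 hX
      refine ⟨union_subset hMA (hX1.trans hTA), ?_⟩
      rw [card_union_of_disjoint, hX2, hr]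
      rw [Finset.disjoint_left]
      exact fun x hx hx2 => hTM' x hx (hX1 hx2)
    set R1 := R.filter (fun X => (2 : ℕ) • (∑ b ∈ M ∪ X, b) = σ) with hR1
    set R2 := R.filter (fun X => ¬ (2 : ℕ) • (∑ b ∈ M ∪ X, b) = σ) with hR2
    have hsum : R1.card + R2.card = R.card := card_filter_add_card_filter_not _
    -- counting R2
    have hc2 : R2.card ≤ Q.card := by
      have hch : ∀ X : Finset G, ∃ t : G, X ∈ R2 → t ∈ X ∧ t ∈ T ∧
          ∃ e ∈ E (M ∪ X), (2 : ℕ) • e = (2 : ℕ) • t := by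
        intro X
        by_cases hX : X ∈ R2
        · obtain ⟨hXR, hXn⟩ := mem_filter.1 hX
          obtain ⟨hY1, hY2⟩ := hRY X hXR
          have hne : (E (M ∪ X)).Nonempty := by
            rw [Finset.nonempty_iff_ne_empty]
            intro h
            exact hXn ((E_empty _ hY1 hY2).1 h)
          obtain ⟨e, he⟩ := hne
          obtain ⟨t, ht, htY, hte⟩ := rep _ hY1 hY2 e he
          refine ⟨t, fun _ => ⟨?_, ht, e, he, hte.symm⟩⟩
          rcases mem_union.1 htY with h | h
          · exact absurd h (hTM t ht)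
          · exact h
        · exact ⟨0, fun h => absurd h hX⟩
      choose τ hτ using hch
      apply card_le_card_of_injOn (fun X => X.erase (τ X))
      · intro X hX
        obtain ⟨hXR, hXn⟩ := mem_filter.1 hX
        obtain ⟨hX1, hX2⟩ := mem_powersetCard.1 hXR
        obtain ⟨h1, h2, -⟩ := hτ X hX
        show X.erase (τ X) ∈ Q
        rw [hQ, mem_powersetCard]
        refine ⟨(erase_subset _ _).trans hX1, ?_⟩
        rw [card_erase_of_mem h1, hX2]; rfl
      · intro X hX X' hX' hXX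
        have hXX' : X.erase (τ X) = X'.erase (τ X') := hXX
        obtain ⟨h1, h2, e, he, hee⟩ := hτ X hX
        obtain ⟨h1', h2', e', he', hee'⟩ := hτ X' hX'
        by_contra hne
        obtain ⟨hXR, -⟩ := mem_filter.1 hX
        obtain ⟨hX1, hX2⟩ := mem_powersetCard.1 hXR
        have hττ : τ X ≠ τ X' := by
          intro h
          apply hne
          rw [← insert_erase h1, ← insert_erase h1', ← hXX', h, ← h]
        set B := M ∪ X.erase (τ X) with hB
        have hyB : τ X ∉ B := by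
          rw [hB, mem_union]
          rintro (h | h)
          · exact hTM _ h2 h
          · exact notMem_erase _ _ h
        have hzB : τ X' ∉ B := by
          rw [hB, mem_union, hXX']
          rintro (h | h)
          · exact hTM _ h2' h
          · exact notMem_erase _ _ h
        have e1 : insert (τ X) B = M ∪ X := by
          rw [hB, ← union_insert, insert_erase h1]
        have e2 : insert (τ X') B = M ∪ X' := by
          rw [hB, hXX', ← union_insert, insert_erase h1']
        have hBA : B ⊆ A := by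
          rw [hB]
          exact union_subset hMA ((erase_subset _ _).trans (hX1.trans hTA))
        have hBs : B.card + 1 = s := by
          rw [← card_insert_of_notMem hyB, e1]; exact (hRY X hXR).2
        refine L3 B hBA hBs _ (hTA h2) _ (hTA h2') hyB hzB
          (fun h => hττ (hTinj _ h2 _ h2' h)) e ?_ e' ?_ hee hee'
        · rw [e1]; exact he
        · rw [e2]; exact he'
    -- counting R1
    have hc1 : R1.card * (r + 1) ≤ Q.card * 1 := by
      apply card_mul_le_card_mul (fun (X Z : Finset G) => Z ⊆ X)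
      · intro X hX
        obtain ⟨hXR, -⟩ := mem_filter.1 hX
        obtain ⟨hX1, hX2⟩ := mem_powersetCard.1 hXR
        have h1 : (X.powersetCard r).card = r + 1 := by
          rw [card_powersetCard, hX2]; simp
        rw [← h1]
        apply card_le_card
        intro Z hZ
        obtain ⟨hZ1, hZ2⟩ := mem_powersetCard.1 hZ
        rw [mem_bipartiteAbove]
        exact ⟨mem_powersetCard.2 ⟨hZ1.trans hX1, hZ2⟩, hZ1⟩
      · intro Z hZ
        rw [card_le_one]
        intro X hX X' hX'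
        rw [mem_bipartiteBelow] at hX hX'
        obtain ⟨hZ1, hZ2⟩ := mem_powersetCard.1 hZ
        obtain ⟨hXR, hXs⟩ := mem_filter.1 hX.1
        obtain ⟨hXR', hXs'⟩ := mem_filter.1 hX'.1
        obtain ⟨hX1, hX2⟩ := mem_powersetCard.1 hXR
        obtain ⟨hX1', hX2'⟩ := mem_powersetCard.1 hXR'
        have hex : ∀ X : Finset G, Z ⊆ X → X.card = r + 1 → ∃ x ∉ Z, X = insert x Z := by
          intro X h1 h2
          have h3 : (X \ Z).card = 1 := by
            rw [card_sdiff_of_subset h1, h2, hZ2]; omega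
          obtain ⟨x, hx⟩ := card_eq_one.1 h3
          refine ⟨x, ?_, ?_⟩
          · have : x ∈ X \ Z := by rw [hx]; exact mem_singleton_self x
            exact (mem_sdiff.1 this).2
          · rw [insert_eq, ← hx, sdiff_union_of_subset h1]
        obtain ⟨x, hxZ, hx⟩ := hex X hX.2 hX2
        obtain ⟨x', hxZ', hx'⟩ := hex X' hX'.2 hX2'
        have hxT : x ∈ T := hX1 (by rw [hx]; exact mem_insert_self _ _)
        have hxT' : x' ∈ T := hX1' (by rw [hx']; exact mem_insert_self _ _)
        have hsumX : ∀ x ∈ T, x ∉ Z → ∑ b ∈ M ∪ insert x Z, b = x + ∑ b ∈ M ∪ Z, b := by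
          intro x hx hxZ
          rw [union_insert, Finset.sum_insert]
          rw [mem_union]
          rintro (h | h)
          · exact hTM x hx h
          · exact hxZ h
        rw [hx, hsumX x hxT hxZ] at hXs
        rw [hx', hsumX x' hxT' hxZ'] at hXs'
        have h5 : (2 : ℕ) • x = (2 : ℕ) • x' := by
          rw [← hXs', smul_add, smul_add] at hXs
          exact add_right_cancel hXs
        rw [hx, hx', hTinj x hxT x' hxT' h5]
    -- binomial identity
    have hRc : R.card * (r + 1) = Q.card * (s + 2) := by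
      rw [hR, hQ, card_powersetCard, card_powersetCard, Nat.choose_succ_right_eq, hTc]
      congr 1; omega
    have hQpos : 0 < Q.card := by
      rw [hQ, card_powersetCard]
      exact Nat.choose_pos (by omega)
    have h6 : Q.card * (s + 2) ≤ Q.card * (r + 2) := by
      rw [← hRc, ← hsum]
      calc (R1.card + R2.card) * (r + 1) = R1.card * (r + 1) + R2.card * (r + 1) := by ring
      _ ≤ Q.card * 1 + Q.card * (r + 1) := by
          apply Nat.add_le_add hc1 (Nat.mul_le_mul_right _ hc2)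
      _ = Q.card * (r + 2) := by ring
    have h7 := Nat.le_of_mul_le_mul_left h6 hQpos
    omega
  -- s-subsets of M
  have hYM : ∀ Y : Finset G, Y ⊆ M → Y.card = s → (2 : ℕ) • (∑ b ∈ Y, b) = σ := by
    intro Y hY hYs
    rw [← E_empty Y (hY.trans hMA) hYs]
    by_contra hne
    obtain ⟨e, he⟩ := Finset.nonempty_iff_ne_empty.2 hne
    obtain ⟨t, ht, htY, -⟩ := rep Y (hY.trans hMA) hYs e he
    exact hTM t ht (hY htY)
  -- replacing an element of Y ⊆ M by an element of T in another class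
  have hrepl : ∀ Y : Finset G, Y ⊆ M → Y.card = s → ∀ x ∈ Y, ∀ y ∈ T, (2 : ℕ) • y ≠ (2 : ℕ) • x →
      ∃ e ∈ E (insert y (Y.erase x)), (2 : ℕ) • e = (2 : ℕ) • y := by
    intro Y hY hYs x hx y hy hyx
    have hyY : y ∉ Y := fun h => hTM y hy (hY h)
    have h1 := swap_sub Y x y (hY.trans hMA) (hTA hy)
    have h2 := swap_card Y x y hx hyY hYs
    have hne : (E (insert y (Y.erase x))).Nonempty := by
      rw [Finset.nonempty_iff_ne_empty]
      intro h
      rw [E_empty _ h1 h2, swap_sum Y x y hx hyY, hYM Y hY hYs] at h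
      apply hyx
      have : (2 : ℕ) • y - (2 : ℕ) • x = 0 := by
        have h3 : σ - (2 : ℕ) • x + (2 : ℕ) • y = σ + ((2 : ℕ) • y - (2 : ℕ) • x) := by abel
        rw [h3] at h
        exact left_eq_add.1 h.symm
      exact sub_eq_zero.1 this
    obtain ⟨e, he⟩ := hne
    obtain ⟨t, ht, htY, hte⟩ := rep _ h1 h2 e he
    refine ⟨e, he, ?_⟩
    rcases mem_insert.1 htY with h | h
    · rw [← hte, h]
    · exact absurd (hY (mem_of_mem_erase h)) (hTM t ht)
  -- all elements of M have the same double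
  have hsame : ∀ x ∈ M, ∀ x' ∈ M, (2 : ℕ) • x = (2 : ℕ) • x' := by
    intro x hx x' hx'
    by_cases hxx : x = x'
    · rw [hxx]
    rcases hMs.lt_or_eq with hlt | heq
    · -- |M| ≥ s + 1
      have hcard : s - 1 ≤ ((M.erase x).erase x').card := by
        rw [card_erase_of_mem (mem_erase.2 ⟨Ne.symm hxx, hx'⟩), card_erase_of_mem hx]
        omega
      obtain ⟨Z, hZ1, hZ2⟩ := exists_subset_card_eq hcard
      have hxZ : x ∉ Z := fun h => (notMem_erase x M) (mem_of_mem_erase (hZ1 h))
      have hxZ' : x' ∉ Z := fun h => notMem_erase x' _ (hZ1 h)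
      have hZM : Z ⊆ M := hZ1.trans ((erase_subset _ _).trans (erase_subset _ _))
      have h1 := hYM (insert x Z) (insert_subset hx hZM)
        (by rw [card_insert_of_notMem hxZ, hZ2]; omega)
      have h2 := hYM (insert x' Z) (insert_subset hx' hZM)
        (by rw [card_insert_of_notMem hxZ', hZ2]; omega)
      rw [Finset.sum_insert hxZ, smul_add] at h1
      rw [Finset.sum_insert hxZ', smul_add, ← h1] at h2
      exact (add_right_cancel h2).symm
    · -- |M| = s, so |T| = s + 1 and s ≥ 2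
      exfalso
      have hTc : T.card = s + 1 := by omega
      have hs2 : 2 ≤ s := by
        rw [heq]
        exact one_lt_card.2 ⟨x, hx, x', hx', hxx⟩
      obtain ⟨t0, ht0, ht0x⟩ := hTsurj x (hMA hx)
      have hc : 1 < (T.erase t0).card := by
        rw [card_erase_of_mem ht0, hTc]; omega
      obtain ⟨y, hy, z, hz, hyz⟩ := one_lt_card.1 hc
      obtain ⟨hy1, hyT⟩ := mem_erase.1 hy
      obtain ⟨hz1, hzT⟩ := mem_erase.1 hz
      have hyx : (2 : ℕ) • y ≠ (2 : ℕ) • x := fun h => hy1 (hTinj y hyT t0 ht0 (by rw [h, ht0x]))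
      have hzx : (2 : ℕ) • z ≠ (2 : ℕ) • x := fun h => hz1 (hTinj z hzT t0 ht0 (by rw [h, ht0x]))
      obtain ⟨e, he, hey⟩ := hrepl M (Subset.refl M) heq.symm x hx y hyT hyx
      obtain ⟨f, hf, hfz⟩ := hrepl M (Subset.refl M) heq.symm x hx z hzT hzx
      have hyB : y ∉ M.erase x := fun h => hTM y hyT (mem_of_mem_erase h)
      have hzB : z ∉ M.erase x := fun h => hTM z hzT (mem_of_mem_erase h)
      exact L3 (M.erase x) ((erase_subset _ _).trans hMA)
        (by rw [card_erase_of_mem hx]; omega) y (hTA hyT) z (hTA hzT) hyB hzB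
        (fun h => hyz (hTinj y hyT z hzT h)) e he f hf hey hfz
  -- conclusion
  obtain ⟨Y, hYM1, hYs⟩ := exists_subset_card_eq hMs
  obtain ⟨x, hx⟩ : Y.Nonempty := by rw [← card_pos]; omega
  set u : G := (2 : ℕ) • x with hu
  have hMu : ∀ x' ∈ M, (2 : ℕ) • x' = u := fun x' hx' => hsame x' hx' x (hYM1 hx)
  obtain ⟨t0, ht0, ht0x⟩ := hTsurj x (hMA (hYM1 hx))
  have hσ1 : σ = s • u := by
    rw [← hYM Y hYM1 hYs, Finset.smul_sum, Finset.sum_congr rfl (fun b hb => hMu b (hYM1 hb)),
      Finset.sum_const, hYs]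
  have hother : ∀ y ∈ T, y ≠ t0 → y = u := by
    intro y hy hyt
    have hyx : (2 : ℕ) • y ≠ (2 : ℕ) • x := fun h => hyt (hTinj y hy t0 ht0 (by rw [h, ht0x]))
    have hyY : y ∉ Y := fun h => hTM y hy (hYM1 h)
    obtain ⟨e0, he0, -⟩ := hrepl Y hYM1 hYs x hx y hy hyx
    have h1 := swap_sub Y x y (hYM1.trans hMA) (hTA hy)
    have h2 := swap_card Y x y hx hyY hYs
    obtain ⟨h3, h4⟩ := hE _ h1 h2
    -- every element of E is y
    have h5 : ∀ e ∈ E (insert y (Y.erase x)), e = y := by
      intro e he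
      obtain ⟨t, ht, htY, hte⟩ := rep _ h1 h2 e he
      have hty : t = y := by
        rcases mem_insert.1 htY with h | h
        · exact h
        · exact absurd (hYM1 (mem_of_mem_erase h)) (hTM t ht)
      rcases mem_insert.1 (h3 he) with h | h
      · exact h
      · exfalso
        apply hyx
        rw [← hty, hte]
        exact hMu e (hYM1 (mem_of_mem_erase h))
    have h6 : E (insert y (Y.erase x)) = {y} := by
      rw [Finset.eq_singleton_iff_unique_mem]
      refine ⟨?_, h5⟩
      have h8 := h5 e0 he0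
      rw [h8] at he0
      exact he0
    rw [h6, Finset.sum_singleton, swap_sum Y x y hx hyY, hYM Y hYM1 hYs, ← hu, two_nsmul] at h4
    have h7 : y = y + y - u := by
      calc y = σ - u + (y + y) - σ := h4
      _ = y + y - u := by abel
    have h8 : y - u = 0 := by
      calc y - u = (y + y - u) - y := by abel
      _ = y - y := by rw [← h7]
      _ = 0 := sub_self y
    exact sub_eq_zero.1 h8
  have hall : ∀ a ∈ A, (2 : ℕ) • a = u ∨ a = u := by
    intro a ha
    by_cases haT : a ∈ T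
    · by_cases hat : a = t0
      · left; rw [hat, ht0x]
      · right; exact hother a haT hat
    · left; exact hMu a (mem_sdiff.2 ⟨ha, haT⟩)
  have h2σ : (2 : ℕ) • σ = ∑ a ∈ A, (2 : ℕ) • a := by rw [hσ, Finset.smul_sum]
  by_cases hall2 : ∀ a ∈ A, (2 : ℕ) • a = u
  · left
    have hu0 : u = 0 := by
      rw [Finset.sum_congr rfl hall2, Finset.sum_const, hA, hσ1, ← mul_smul, add_smul,
        one_smul] at h2σ
      exact (left_eq_add.1 h2σ)
    intro a ha
    rw [hall2 a ha, hu0]
  · right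
    push Not at hall2
    obtain ⟨a0, ha0, ha0u⟩ := hall2
    have ha0' : a0 = u := (hall a0 ha0).resolve_left ha0u
    rw [ha0'] at ha0 ha0u
    have hu0 : u ≠ 0 := by
      intro h
      apply ha0u
      rw [h, smul_zero]
    refine ⟨u, hu0, ?_, hall, x, hMA (hYM1 hx), rfl⟩
    have h9 : ∀ a ∈ A.erase u, (2 : ℕ) • a = u := by
      intro a ha
      obtain ⟨h1, h2⟩ := mem_erase.1 ha
      exact (hall a h2).resolve_right h1
    rw [← Finset.add_sum_erase A _ ha0, Finset.sum_congr rfl h9, Finset.sum_const,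
      card_erase_of_mem ha0, hA, hσ1, ← mul_smul, Nat.add_sub_cancel] at h2σ
    exact (right_eq_add.1 h2σ)

end comb

/-- a finite group of exponent `2` and order `2^n` -/
theorem elem2 {G : Type*} [AddCommGroup G] [Finite G] (h : ∀ g : G, (2 : ℕ) • g = 0) (n : ℕ)
    (hn : Nat.card G = 2 ^ n) : Nonempty (G ≃+ (Fin n → ZMod 2)) := by
  let : Module (ZMod 2) G := AddCommGroup.zmodModule h
  have hfin : Module.Finite (ZMod 2) G := Module.Finite.of_finite
  have hfr := Module.natCard_eq_pow_finrank (K := ZMod 2) (V := G)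
  rw [hn, Nat.card_zmod] at hfr
  have hfr2 : n = Module.finrank (ZMod 2) G := Nat.pow_right_injective le_rfl hfr
  exact ⟨(LinearEquiv.ofFinrankEq G (Fin n → ZMod 2)
    (by rw [Module.finrank_fin_fun]; exact hfr2.symm)).toAddEquiv⟩

/-- a group of order `2^(n+2)` in which all doubles are `0` or `u`, `u` being a double -/
theorem elem4 {G : Type*} [AddCommGroup G] [Finite G] (u : G) (hu : u ≠ 0) (h2u : (2 : ℕ) • u = 0)
    (h : ∀ g : G, (2 : ℕ) • g = 0 ∨ (2 : ℕ) • g = u) (g : G) (hg : (2 : ℕ) • g = u) (n : ℕ)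
    (hn : Nat.card G = 2 ^ (n + 2)) : Nonempty (G ≃+ (Fin n → ZMod 2) × ZMod 4) := by
  -- the 2-torsion as a vector space
  set V : AddSubgroup G := (nsmulAddMonoidHom (α := G) 2).ker with hV
  have hmemV : ∀ x : G, x ∈ V ↔ (2 : ℕ) • x = 0 := by
    intro x
    rw [hV, AddMonoidHom.mem_ker]; rfl
  have hV2 : ∀ x : V, (2 : ℕ) • x = 0 := by
    intro x
    apply Subtype.ext
    have := (hmemV x).1 x.2
    simpa using this
  let : Module (ZMod 2) V := AddCommGroup.zmodModule hV2
  set uV : V := ⟨u, (hmemV u).2 h2u⟩ with huV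
  obtain ⟨W, hW⟩ := Submodule.exists_isCompl (Submodule.span (ZMod 2) {uV})
  have h4g : (4 : ℕ) • g = 0 := by
    have : (4 : ℕ) • g = (2 : ℕ) • ((2 : ℕ) • g) := by rw [← mul_smul]; norm_num
    rw [this, hg, h2u]
  have h4z : (zmultiplesHom G g) ((4 : ℕ) : ℤ) = 0 := by
    rw [zmultiplesHom_apply, natCast_zsmul, h4g]
  let φ : ZMod 4 →+ G := ZMod.lift 4 ⟨zmultiplesHom G g, h4z⟩
  let ψ : W →+ G := V.subtype.comp W.subtype.toAddMonoidHom
  have hφ : ∀ k : ℕ, φ (k : ZMod 4) = k • g := by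
    intro k
    have := ZMod.lift_coe 4 ⟨zmultiplesHom G g, h4z⟩ (k : ℤ)
    rw [zmultiplesHom_apply, natCast_zsmul, Int.cast_natCast] at this
    exact this
  have hψ : ∀ w : W, ψ w = ((w : V) : G) := fun _ => rfl
  let Φ : ZMod 4 × W →+ G := φ.coprod ψ
  have hΦ : ∀ (k : ℕ) (w : W), Φ ((k : ZMod 4), w) = k • g + ((w : V) : G) := by
    intro k w
    show φ (k : ZMod 4) + ψ w = _
    rw [hφ, hψ]
  have hcase : ∀ k : ZMod 4, k = ((0 : ℕ) : ZMod 4) ∨ k = ((1 : ℕ) : ZMod 4) ∨
      k = ((2 : ℕ) : ZMod 4) ∨ k = ((3 : ℕ) : ZMod 4) := by decide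
  have hinj : Function.Injective Φ := by
    rw [injective_iff_map_eq_zero]
    rintro ⟨k, w⟩ hk
    have hw2 : (2 : ℕ) • (((w : V) : G)) = 0 := (hmemV _).1 (w : V).2
    have huW : ∀ w : W, u + ((w : V) : G) = 0 → False := by
      intro w hw
      have h1 : (w : V) = -uV := by
        apply Subtype.ext
        show ((w : V) : G) = -u
        exact eq_neg_of_add_eq_zero_right hw
      have h2 : uV ∈ W := by
        have := W.neg_mem w.2
        rw [h1, neg_neg] at this
        exact this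
      have h3 : uV ∈ Submodule.span (ZMod 2) {uV} := Submodule.mem_span_singleton_self uV
      have h4 : uV ∈ (⊥ : Submodule (ZMod 2) V) := by
        rw [← hW.inf_eq_bot]; exact ⟨h3, h2⟩
      rw [Submodule.mem_bot] at h4
      exact hu (congrArg Subtype.val h4)
    rcases hcase k with rfl | rfl | rfl | rfl
    · rw [hΦ, zero_smul, zero_add] at hk
      have : w = 0 := Subtype.ext (Subtype.ext hk)
      rw [this]; rfl
    · exfalso
      rw [hΦ, one_smul] at hk
      have h5 : (2 : ℕ) • (g + ((w : V) : G)) = 0 := by rw [hk, smul_zero]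
      rw [smul_add, hg, hw2, add_zero] at h5
      exact hu h5
    · exfalso
      rw [hΦ, hg] at hk
      exact huW w hk
    · exfalso
      rw [hΦ] at hk
      have h5 : (2 : ℕ) • ((3 : ℕ) • g + ((w : V) : G)) = 0 := by rw [hk, smul_zero]
      have h6 : (2 : ℕ) • ((3 : ℕ) • g) = u + (2 : ℕ) • u := by
        rw [← hg]; abel
      rw [smul_add, hw2, add_zero, h6, h2u, add_zero] at h5
      exact hu h5
  have hsurjV : ∀ x : G, (2 : ℕ) • x = 0 → ∃ k : ℕ, ∃ w : W, x = (2 * k) • g + ((w : V) : G) := by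
    intro x hx
    have hxt : (⟨x, (hmemV x).2 hx⟩ : V) ∈ Submodule.span (ZMod 2) {uV} ⊔ W := by
      rw [hW.sup_eq_top]; trivial
    obtain ⟨y, hy, w, hw, hyw⟩ := Submodule.mem_sup.1 hxt
    obtain ⟨c, hc⟩ := Submodule.mem_span_singleton.1 hy
    have hc01 : ∀ c : ZMod 2, c = 0 ∨ c = 1 := by decide
    rcases hc01 c with hc0 | hc1
    · refine ⟨0, ⟨w, hw⟩, ?_⟩
      rw [hc0, zero_smul] at hc
      rw [← hc, zero_add] at hyw
      rw [mul_zero, zero_smul, zero_add]
      exact (congrArg Subtype.val hyw).symm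
    · refine ⟨1, ⟨w, hw⟩, ?_⟩
      rw [hc1, one_smul] at hc
      rw [← hc] at hyw
      rw [mul_one, hg]
      exact (congrArg Subtype.val hyw).symm
  have hsurj : Function.Surjective Φ := by
    intro x
    rcases h x with hx | hx
    · obtain ⟨k, w, hk⟩ := hsurjV x hx
      exact ⟨(((2 * k : ℕ) : ZMod 4), w), by rw [hΦ, ← hk]⟩
    · have hx' : (2 : ℕ) • (x - g) = 0 := by rw [smul_sub, hx, hg, sub_self]
      obtain ⟨k, w, hk⟩ := hsurjV (x - g) hx'
      refine ⟨(((2 * k + 1 : ℕ) : ZMod 4), w), ?_⟩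
      rw [hΦ, add_smul, one_smul]
      have : x = (x - g) + g := by abel
      rw [this, hk]; abel
  have hequiv : (ZMod 4 × W) ≃+ G := AddEquiv.ofBijective Φ ⟨hinj, hsurj⟩
  have hcard : Nat.card W = 2 ^ n := by
    have h1 : Nat.card (ZMod 4 × W) = Nat.card G := Nat.card_congr hequiv.toEquiv
    rw [Nat.card_prod, Nat.card_zmod, hn, pow_add] at h1
    omega
  obtain ⟨θ⟩ := elem2 (G := W) (by
    intro w
    apply Subtype.ext
    show (2 : ℕ) • (w : V) = 0
    exact hV2 _) n hcard
  exact ⟨hequiv.symm.trans ((AddEquiv.prodComm).trans (θ.prodCongr (AddEquiv.refl _)))⟩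

/-- the order of `G` -/
theorem card_eq {G : Type*} [AddCommGroup G] {s : ℕ} {A : Finset G}
    (hA : A.card = 2 * s + 1) (hb : IsPerfectRestrictedBasis s A) : Nat.card G = 2 ^ (2 * s) := by
  classical
  set S := A.powerset.filter (fun B => B.card ≤ s) with hS
  have hbij : Function.Bijective (fun B : S => ∑ b ∈ (B : Finset G), b) := by
    constructor
    · rintro ⟨B, hB⟩ ⟨B', hB'⟩ h
      obtain ⟨h1, h2⟩ := mem_filter.1 hB
      obtain ⟨h1', h2'⟩ := mem_filter.1 hB'
      have h' : ∑ b ∈ B, b = ∑ b ∈ B', b := h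
      exact Subtype.ext ((hb (∑ b ∈ B', b)).unique ⟨mem_powerset.1 h1, h2, h'⟩
        ⟨mem_powerset.1 h1', h2', rfl⟩)
    · intro g
      obtain ⟨B, ⟨h1, h2, h3⟩, -⟩ := hb g
      exact ⟨⟨B, mem_filter.2 ⟨mem_powerset.2 h1, h2⟩⟩, h3⟩
  have h1 : Nat.card G = S.card := by
    rw [← Nat.card_congr (Equiv.ofBijective _ hbij)]
    simp
  have h2 : S.card = ∑ i ∈ range (s + 1), (powersetCard i A).card := by
    rw [card_eq_sum_card_fiberwise (f := fun B : Finset G => B.card) (t := range (s + 1))]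
    · apply Finset.sum_congr rfl
      intro i hi
      congr 1
      ext B
      simp only [hS, mem_filter, mem_powerset, mem_powersetCard]
      constructor
      · rintro ⟨⟨h1, _⟩, h3⟩
        exact ⟨h1, h3⟩
      · rintro ⟨h1, h3⟩
        have := mem_range.1 hi
        exact ⟨⟨h1, by omega⟩, h3⟩
    · intro B hB
      have := (mem_filter.1 hB).2
      simp only [coe_range, Set.mem_Iio]
      omega
  rw [h1, h2]
  simp only [card_powersetCard, hA]
  rw [Nat.sum_range_choose_halfway, show (4 : ℕ) = 2 ^ 2 from rfl, ← pow_mul]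

/-- If a finite abelian group has a perfect restricted `s`-basis of size `2s+1` (`s ≥ 1`), then it
is isomorphic to `Z₂^{2s}` or to `Z₂^{2s-2} × Z₄`. -/
theorem result (G : Type*) [AddCommGroup G] [Finite G] (s : ℕ) (hs : 1 ≤ s) (A : Finset G)
    (hA : A.card = 2 * s + 1) (hb : IsPerfectRestrictedBasis s A) :
    Nonempty (G ≃+ (Fin (2 * s) → ZMod 2)) ∨
    Nonempty (G ≃+ (Fin (2 * s - 2) → ZMod 2) × ZMod 4) := by
  classical
  have hcard := card_eq hA hb
  have hinj : ∀ B ⊆ A, ∀ B' ⊆ A, B.card ≤ s → B'.card ≤ s → ∑ b ∈ B, b = ∑ b ∈ B', b →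
      B = B' := fun B h1 B' h2 h3 h4 h5 => (hb (∑ b ∈ B', b)).unique ⟨h1, h3, h5⟩ ⟨h2, h4, rfl⟩
  have hsurj : ∀ g : G, ∃ B ⊆ A, B.card ≤ s ∧ ∑ b ∈ B, b = g := by
    intro g
    obtain ⟨B, ⟨h1, h2, h3⟩, -⟩ := hb g
    exact ⟨B, h1, h2, h3⟩
  rcases core hs hA hinj hsurj with h | ⟨u, hu, h2u, hall, a, -, hau⟩
  · left
    apply elem2 _ _ hcard
    intro g
    obtain ⟨B, hB, -, rfl⟩ := hsurj g
    rw [Finset.smul_sum]
    exact Finset.sum_eq_zero (fun b hbB => h b (hB hbB))
  · right
    apply elem4 u hu h2u _ a hau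
    · rw [hcard]; congr 1; omega
    · intro g
      obtain ⟨B, hB, -, rfl⟩ := hsurj g
      rw [Finset.smul_sum]
      apply Finset.sum_induction (fun b : G => (2 : ℕ) • b) (fun x => x = 0 ∨ x = u)
      · rintro x y (rfl | rfl) (rfl | rfl)
        · left; simp
        · right; simp
        · right; simp
        · left; rw [← two_nsmul]; exact h2u
      · left; rfl
      · intro b hbB
        rcases hall b (hB hbB) with h | h
        · right; exact h
        · left; rw [h]; exact h2u

end Pool.Agent.Results.MP_c73f8e_nt.PerfectBases
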